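import Pool.Agent.H21_anco.Pub

/-!
The nontrivial sphere bundles over the two-sphere, as explicit real algebraic sets.
-/

open Pool.Agent.H21_anco

noncomputable section

namespace Pool.Agent.H21_s2

/-- The set of all `(z, t, w, w', y)` in `ℂ × ℝ × ℂ × ℂ × ℝ^j` with `|z|^2 + t^2 = 1`,
`conj z * w' = (1 - t) w`, `z * w = (1 + t) w'` and `|w|^2 + |w'|^2 + |y|^2 = 1`. The first equation
describes the sphere `S^2`, the next two say that `(w, w')` lies in the image of the projection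
`1/2 (1 + t, conj z; z, 1 - t)` of `ℂ^2`, i.e. in the line bundle of degree `±1` over `S^2`, and
the set is the unit sphere bundle of the sum of this line bundle and the trivial bundle `ℝ^j`. -/
def hopfBundle (j : ℕ) : Set ((ℂ × ℝ) × ((ℂ × ℂ) × Pub.RR j)) :=
  {q | ‖q.1.1‖ ^ 2 + q.1.2 ^ 2 = 1 ∧
    star q.1.1 * q.2.1.2 = (1 - (q.1.2 : ℂ)) * q.2.1.1 ∧
    q.1.1 * q.2.1.1 = (1 + (q.1.2 : ℂ)) * q.2.1.2 ∧
    ‖q.2.1.1‖ ^ 2 + ‖q.2.1.2‖ ^ 2 + ‖q.2.2‖ ^ 2 = 1}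

end Pool.Agent.H21_s2
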