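import Pool.Agent.H21_anco.Pub

/-!
Invariance of the notions under linear isomorphisms of the ambient space.
-/

open scoped ContDiff
open Set

noncomputable section

namespace Pool.Agent.H21_s2

open Pool.Agent.H21_anco.Pub

variable {E E' : Type*} [NormedAddCommGroup E] [NormedSpace ℝ E] [NormedAddCommGroup E']
  [NormedSpace ℝ E']

theorem D_comp (e : E' ≃L[ℝ] E) {n : ℕ} (ψ : RR n → E') (x u : RR n) :
    D (fun y => e (ψ y)) x u = e (D ψ x u) := by
  have h : fderiv ℝ (e ∘ ψ) x = (e : E' →L[ℝ] E).comp (fderiv ℝ ψ x) := e.comp_fderiv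
  show fderiv ℝ (e ∘ ψ) x u = _
  rw [h]
  rfl

theorem param_iff (e : E' ≃L[ℝ] E) {M : Set E} {n : ℕ} {U : Set (RR n)} {ψ : RR n → E'} :
    IsParam (e ⁻¹' M) n U ψ ↔ IsParam M n U (fun y => e (ψ y)) := by
  constructor
  · intro h
    refine ⟨h.isOpen, e.contDiff.comp_contDiffOn h.smooth, fun x hx => h.maps x hx, ?_⟩
    intro x hx a b hab
    rw [D_comp, D_comp] at hab
    exact h.imm x hx (e.injective hab)
  · intro h
    refine ⟨h.isOpen, ?_, fun x hx => h.maps x hx, ?_⟩
    · have h1 := e.symm.contDiff.comp_contDiffOn h.smooth (n := ∞)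
      refine h1.congr ?_
      intro x _
      simp
    · intro x hx a b hab
      refine h.imm x hx ?_
      rw [D_comp, D_comp, hab]

theorem closed_preimage (e : E' ≃L[ℝ] E) {M : Set E} {n : ℕ} (h : IsClosedManifold M n) :
    IsClosedManifold (e ⁻¹' M) n where
  compact := by
    have : e ⁻¹' M = e.symm '' M := by
      rw [← e.image_symm_eq_preimage]
    rw [this]
    exact h.compact.image e.symm.continuous
  nonempty := by
    obtain ⟨p, hp⟩ := h.nonempty
    exact ⟨e.symm p, by simpa using hp⟩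
  chart := by
    intro p hp
    obtain ⟨U, ψ, W, ρ, hc⟩ := h.chart (e p) hp
    refine ⟨U, fun x => e.symm (ψ x), e ⁻¹' W, fun q => ρ (e q), ?_, ?_, ?_, ?_, ?_, ?_⟩
    · rw [param_iff]
      simpa using hc.param
    · exact hc.isOpen.preimage e.continuous
    · exact hc.mem
    · exact hc.smooth.comp e.contDiff.contDiffOn fun q hq => hq
    · intro q hq hqM
      obtain ⟨h1, h2⟩ := hc.left (e q) hq hqM
      exact ⟨h1, by rw [h2]; simp⟩
    · intro x hx
      obtain ⟨h1, h2⟩ := hc.right x hx
      refine ⟨by simpa using h1, by simpa using h2⟩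

/-- the transported bilinear forms -/
def transG (e : E' ≃L[ℝ] E) (G : E → LinearMap.BilinForm ℝ E) (p : E') :
    LinearMap.BilinForm ℝ E' :=
  (G (e p)).compl₁₂ (e : E' →ₗ[ℝ] E) (e : E' →ₗ[ℝ] E)

theorem transG_apply (e : E' ≃L[ℝ] E) (G : E → LinearMap.BilinForm ℝ E) (p u v : E') :
    transG e G p u v = G (e p) (e u) (e v) := rfl

theorem pull_trans (e : E' ≃L[ℝ] E) (G : E → LinearMap.BilinForm ℝ E) {n : ℕ} (ψ : RR n → E') :
    pull (transG e G) ψ = pull G (fun y => e (ψ y)) := by
  funext x u v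
  simp only [pull, transG_apply, D_comp]

theorem connects_trans (e : E' ≃L[ℝ] E) {G : E → LinearMap.BilinForm ℝ E} {M : Set E} {p q : E}
    {ℓ : ℝ} (h : Connects G M p q ℓ) :
    Connects (transG e G) (e ⁻¹' M) (e.symm p) (e.symm q) ℓ := by
  induction h with
  | curve γ hγ hM =>
    have h1 : length (transG e G) (fun t => e.symm (γ t)) = length G γ := by
      simp only [length]
      refine intervalIntegral.integral_congr fun t ht => ?_
      rw [uIcc_of_le zero_le_one] at ht
      have h2 : derivWithin (fun t => e.symm (γ t)) (Icc 0 1) t =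
          e.symm (derivWithin γ (Icc 0 1) t) := by
        have h3 : DifferentiableWithinAt ℝ γ (Icc 0 1) t :=
          (hγ.differentiableOn (by norm_num)) t ht
        have h4 := h3.hasDerivWithinAt
        have h5 := (e.symm.toContinuousLinearMap.hasFDerivAt
          (x := γ t)).comp_hasDerivWithinAt t h4
        exact h5.derivWithin ((uniqueDiffOn_Icc_zero_one) t ht)
      simp only [h2, transG_apply, ContinuousLinearEquiv.apply_symm_apply]
    have h2 := Connects.curve (G := transG e G) (M := e ⁻¹' M) (fun t => e.symm (γ t))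
      (e.symm.contDiff.comp_contDiffOn hγ) (fun t ht => by simpa using hM t ht)
    rw [h1] at h2
    exact h2
  | trans _ _ ih1 ih2 => exact Connects.trans ih1 ih2

theorem anco_preimage (e : E' ≃L[ℝ] E) {M : Set E} {n : ℕ} (h : ANCO M n) :
    ANCO (e ⁻¹' M) n := by
  intro ε hε
  obtain ⟨G, hG, hd, hc⟩ := h ε hε
  refine ⟨transG e G, ⟨?_, ?_, ?_⟩, ?_, ?_⟩
  · intro u v
    exact (hG.smooth (e u) (e v)).comp e.contDiff
  · intro U ψ hψ x hx u v
    rw [pull_trans]
    exact hG.symm U _ ((param_iff e).1 hψ) x hx u v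
  · intro U ψ hψ x hx u hu
    rw [pull_trans]
    exact hG.pos U _ ((param_iff e).1 hψ) x hx u hu
  · intro p hp q hq η hη
    obtain ⟨ℓ, hℓ, hcon⟩ := hd (e p) hp (e q) hq η hη
    have := connects_trans e hcon
    rw [e.symm_apply_apply, e.symm_apply_apply] at this
    exact ⟨ℓ, hℓ, this⟩
  · intro U ψ hψ
    rw [pull_trans]
    exact hc U _ ((param_iff e).1 hψ)

/-! ### the point -/

theorem closed_point : IsClosedManifold (univ : Set (RR 0)) 0 where
  compact := isCompact_univ
  nonempty := ⟨0, mem_univ _⟩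
  chart := by
    intro p _
    refine ⟨univ, id, univ, id, ⟨isOpen_univ, contDiff_id.contDiffOn, fun x _ => mem_univ _,
      fun x _ => Function.injective_of_subsingleton _⟩, isOpen_univ, mem_univ _,
      contDiff_id.contDiffOn, fun q _ _ => ⟨mem_univ _, rfl⟩, fun x _ => ⟨mem_univ _, rfl⟩⟩

theorem anco_point : ANCO (univ : Set (RR 0)) 0 := by
  intro ε hε
  refine ⟨fun _ => 0, ⟨?_, ?_, ?_⟩, ?_, ?_⟩
  · intro u v
    simp only [LinearMap.zero_apply]
    exact contDiff_const
  · intro U ψ _ x _ u v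
    simp [pull]
  · intro U ψ _ x _ u hu
    exact absurd (Subsingleton.elim u 0) hu
  · intro p _ q _ η hη
    have hpq : p = q := Subsingleton.elim p q
    subst hpq
    have h1 := Connects.curve (G := fun _ => (0 : LinearMap.BilinForm ℝ (RR 0)))
      (M := (univ : Set (RR 0))) (fun _ => p) contDiffOn_const (fun t _ => mem_univ _)
    have h2 : length (fun _ => (0 : LinearMap.BilinForm ℝ (RR 0))) (fun _ : ℝ => p) = 0 := by
      simp [length]
    rw [h2] at h1
    exact ⟨0, by linarith, h1⟩
  · intro U ψ _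
    have hpull : pull (fun _ => (0 : LinearMap.BilinForm ℝ (RR 0))) ψ = fun _ _ _ => 0 := by
      funext x u v
      simp [pull]
    rw [hpull]
    refine ⟨fun _ _ _ => 0, ⟨fun u v => contDiffOn_const, ?_⟩, ?_⟩
    · intro x _ u v w
      simp [D]
    · intro x _ m a b
      simp [wed]

end Pool.Agent.H21_s2
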