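import Pool.Agent.H21_s2.Closure
import Pool.Agent.H21_s2.Trans
import Pool.Agent.H21_s2.Def

/-!
The nontrivial sphere bundles over the two-sphere are closed manifolds with almost nonnegative
curvature operator.
-/

open scoped ContDiff
open Set

noncomputable section

namespace Pool.Agent.H21_s2

open Pool.Agent.H21_anco.Pub

/-- the two-sphere, as a sphere bundle over a point -/
def sph : Set (RR 0 × ((Fin 1 → ℂ) × RR 1)) :=
  SB 1 (univ : Set (RR 0)) (fun (_ : Fin 1) (_ : RR 0) => (LinearMap.id : ℂ →ₗ[ℂ] ℂ))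

theorem sph_spec : IsClosedManifold sph 2 ∧ ANCO sph 2 := by
  refine sphere_bundle (n := 0) (k := 1) (j := 1) (N := 2) one_pos (by norm_num) closed_point
    anco_point (fun i v => contDiff_const) ?_
  intro i b _
  refine ⟨fun v => rfl, fun v w => rfl, ?_⟩
  rw [LinearMap.range_id, finrank_top, Module.finrank_self]

theorem mem_sph (b : RR 0 × ((Fin 1 → ℂ) × RR 1)) :
    b ∈ sph ↔ ‖b.2.1 0‖ ^ 2 + (b.2.2 0) ^ 2 = 1 := by
  simp only [sph, SB, mem_ofPred_eq, mem_univ, true_and, LinearMap.id_apply, implies_true,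
    Fin.sum_univ_one, EuclideanSpace.norm_sq_eq, Real.norm_eq_abs, sq_abs]

/-- the Hermitian plane -/
abbrev CC : Type := EuclideanSpace ℂ (Fin 2)

/-- the family of projections `1/2 (1 + t, conj z; z, 1 - t)` -/
def hopfP (z : ℂ) (t : ℝ) : CC →ₗ[ℂ] CC where
  toFun v := WithLp.toLp 2 ![((1 + (t : ℂ)) * v 0 + (starRingEnd ℂ) z * v 1) / 2,
    (z * v 0 + (1 - (t : ℂ)) * v 1) / 2]
  map_add' v w := by
    ext i
    fin_cases i
    · simp
      ring
    · simp
      ring
  map_smul' c v := by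
    ext i
    fin_cases i
    · simp
      ring
    · simp
      ring

theorem hopfP_zero (z : ℂ) (t : ℝ) (v : CC) :
    hopfP z t v 0 = ((1 + (t : ℂ)) * v 0 + (starRingEnd ℂ) z * v 1) / 2 := rfl

theorem hopfP_one (z : ℂ) (t : ℝ) (v : CC) :
    hopfP z t v 1 = (z * v 0 + (1 - (t : ℂ)) * v 1) / 2 := rfl

theorem conj_mul_self' (z : ℂ) : (starRingEnd ℂ) z * z = ((‖z‖ ^ 2 : ℝ) : ℂ) := by
  have h := Complex.normSq_eq_conj_mul_self (z := z)
  rw [Complex.normSq_eq_norm_sq] at h
  exact h.symm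

theorem ext_two {v w : CC} (h0 : v 0 = w 0) (h1 : v 1 = w 1) : v = w := by
  ext i
  fin_cases i
  · exact h0
  · exact h1

theorem hopfP_fix {z : ℂ} {t : ℝ} (v : CC) :
    hopfP z t v = v ↔ (starRingEnd ℂ) z * v 1 = (1 - (t : ℂ)) * v 0 ∧ z * v 0 = (1 + (t : ℂ)) * v 1 := by
  constructor
  · intro h
    have h0 : hopfP z t v 0 = v 0 := by rw [h]
    have h1 : hopfP z t v 1 = v 1 := by rw [h]
    rw [hopfP_zero] at h0
    rw [hopfP_one] at h1
    constructor
    · linear_combination 2 * h0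
    · linear_combination 2 * h1
  · rintro ⟨h0, h1⟩
    refine ext_two ?_ ?_
    · rw [hopfP_zero]
      linear_combination h0 / 2
    · rw [hopfP_one]
      linear_combination h1 / 2

theorem lineProj_hopfP {z : ℂ} {t : ℝ} (h : ‖z‖ ^ 2 + t ^ 2 = 1) : IsLineProj (hopfP z t) := by
  have hz : (starRingEnd ℂ) z * z = 1 - (t : ℂ) ^ 2 := by
    rw [conj_mul_self']
    have : ‖z‖ ^ 2 = 1 - t ^ 2 := by linarith
    rw [this]
    push_cast
    ring
  have hid : ∀ v, hopfP z t (hopfP z t v) = hopfP z t v := by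
    intro v
    rw [hopfP_fix, hopfP_zero, hopfP_one]
    constructor
    · linear_combination (v 0 / 2) * hz
    · linear_combination (v 1 / 2) * hz
  refine ⟨hid, ?_, ?_⟩
  · intro v w
    rw [PiLp.inner_apply, PiLp.inner_apply, Fin.sum_univ_two, Fin.sum_univ_two, hopfP_zero,
      hopfP_one, hopfP_zero, hopfP_one]
    have h2 : (starRingEnd ℂ) (2 : ℂ) = 2 := by
      rw [show (2 : ℂ) = ((2 : ℝ) : ℂ) by norm_num, Complex.conj_ofReal]
    simp only [RCLike.inner_apply, map_div₀, map_add, map_mul, map_sub, map_one,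
      Complex.conj_ofReal, Complex.conj_conj, h2]
    ring
  · by_cases ht : (1 + (t : ℂ)) = 0
    · -- the south pole
      have ht' : (t : ℂ) = -1 := by linear_combination ht
      have hz0 : z = 0 := by
        have h1 : (starRingEnd ℂ) z * z = 0 := by rw [hz, ht']; ring
        rcases mul_eq_zero.1 h1 with h2 | h2
        · exact (map_eq_zero _).1 h2
        · exact h2
      rw [finrank_eq_one_iff']
      refine ⟨⟨WithLp.toLp 2 ![0, 1], ⟨WithLp.toLp 2 ![0, 1], ?_⟩⟩, ?_, ?_⟩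
      · refine ext_two ?_ ?_
        · rw [hopfP_zero, hz0, ht']
          simp
        · rw [hopfP_one, hz0, ht']
          norm_num
      · intro h0
        have h1 := congrArg (fun v : LinearMap.range (hopfP z t) => (v : CC) 1) h0
        simp at h1
      · rintro ⟨w, v, hv⟩
        refine ⟨v 1, ?_⟩
        apply Subtype.ext
        show v 1 • (WithLp.toLp 2 ![0, 1] : CC) = w
        rw [← hv]
        refine ext_two ?_ ?_
        · rw [hopfP_zero, hz0, ht']
          simp
        · rw [hopfP_one, hz0, ht']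
          simp
          ring
    · rw [finrank_eq_one_iff']
      refine ⟨⟨WithLp.toLp 2 ![1 + (t : ℂ), z], ⟨WithLp.toLp 2 ![1 + (t : ℂ), z], ?_⟩⟩, ?_, ?_⟩
      · refine ext_two ?_ ?_
        · rw [hopfP_zero]
          simp
          linear_combination hz / 2
        · rw [hopfP_one]
          simp
          ring
      · intro h0
        have h1 := congrArg (fun v : LinearMap.range (hopfP z t) => (v : CC) 0) h0
        simp at h1
        exact ht h1
      · rintro ⟨w, v, hv⟩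
        refine ⟨(v 0 + (starRingEnd ℂ) z * v 1 / (1 + (t : ℂ))) / 2, ?_⟩
        apply Subtype.ext
        show ((v 0 + (starRingEnd ℂ) z * v 1 / (1 + (t : ℂ))) / 2) •
          (WithLp.toLp 2 ![1 + (t : ℂ), z] : CC) = w
        rw [← hv]
        refine ext_two ?_ ?_
        · rw [hopfP_zero]
          simp
          field_simp
        · rw [hopfP_one]
          simp
          field_simp
          linear_combination (v 1) * hz

theorem contDiff_hopfP {E : Type*} [NormedAddCommGroup E] [NormedSpace ℝ E] {z : E → ℂ}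
    {t : E → ℝ} (hz : ContDiff ℝ ∞ z) (ht : ContDiff ℝ ∞ t) (v : CC) :
    ContDiff ℝ ∞ (fun b => hopfP (z b) (t b) v) := by
  have ht' : ContDiff ℝ ∞ (fun b => ((t b : ℝ) : ℂ)) :=
    (Complex.ofRealCLM.contDiff).comp ht
  have hz' : ContDiff ℝ ∞ (fun b => (starRingEnd ℂ) (z b)) :=
    (Complex.conjCLE.contDiff).comp hz
  rw [contDiff_piLp]
  intro i
  fin_cases i
  · show ContDiff ℝ ∞ (fun b => ((1 + ((t b : ℝ) : ℂ)) * v 0 + (starRingEnd ℂ) (z b) * v 1) / 2)
    exact (((contDiff_const.add ht').mul contDiff_const).add (hz'.mul contDiff_const)).div_const 2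
  · show ContDiff ℝ ∞ (fun b => (z b * v 0 + (1 - ((t b : ℝ) : ℂ)) * v 1) / 2)
    exact ((hz.mul contDiff_const).add ((contDiff_const.sub ht').mul contDiff_const)).div_const 2

/-- the sphere bundle over the model of the two-sphere -/
def hopfSB (j : ℕ) : Set ((RR 0 × ((Fin 1 → ℂ) × RR 1)) × ((Fin 1 → CC) × RR j)) :=
  SB j sph (fun (_ : Fin 1) (b : RR 0 × ((Fin 1 → ℂ) × RR 1)) => hopfP (b.2.1 0) (b.2.2 0))

theorem hopfSB_spec (j : ℕ) :
    IsClosedManifold (hopfSB j) (j + 3) ∧ ANCO (hopfSB j) (j + 3) := by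
  refine sphere_bundle (n := 2) (k := 1) (j := j) (N := j + 3) one_pos (by ring) sph_spec.1
    sph_spec.2 ?_ ?_
  · intro i v
    refine contDiff_hopfP ?_ ?_ v
    · have h1 : ContDiff ℝ ∞ fun b : RR 0 × ((Fin 1 → ℂ) × RR 1) => b.2.1 :=
        contDiff_fst.comp contDiff_snd
      exact (contDiff_apply ℝ ℂ (0 : Fin 1)).comp h1
    · have h1 : ContDiff ℝ ∞ fun b : RR 0 × ((Fin 1 → ℂ) × RR 1) => b.2.2 :=
        contDiff_snd.comp contDiff_snd
      exact (contDiff_piLp_apply 2 (i := (0 : Fin 1))).comp h1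
  · intro i b hb
    exact lineProj_hopfP ((mem_sph b).1 hb)

/-- the linear isomorphism of the ambient spaces -/
def ambL (j : ℕ) : ((ℂ × ℝ) × ((ℂ × ℂ) × RR j)) ≃ₗ[ℝ]
    ((RR 0 × ((Fin 1 → ℂ) × RR 1)) × ((Fin 1 → CC) × RR j)) where
  toFun q := ((0, (fun _ => q.1.1, WithLp.toLp 2 fun _ => q.1.2)),
    (fun _ => WithLp.toLp 2 ![q.2.1.1, q.2.1.2], q.2.2))
  invFun p := ((p.1.2.1 0, p.1.2.2 0), ((p.2.1 0 0, p.2.1 0 1), p.2.2))
  left_inv q := rfl
  right_inv p := by
    obtain ⟨⟨a, b, c⟩, d, e⟩ := p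
    refine Prod.ext (Prod.ext (Subsingleton.elim _ _) (Prod.ext ?_ ?_)) (Prod.ext ?_ rfl)
    · funext i
      fin_cases i
      rfl
    · ext i
      fin_cases i
      rfl
    · funext i
      fin_cases i
      exact ext_two rfl rfl
  map_add' p q := by
    refine Prod.ext (Prod.ext (Subsingleton.elim _ _) (Prod.ext rfl rfl)) (Prod.ext ?_ rfl)
    funext i
    exact ext_two rfl rfl
  map_smul' c p := by
    refine Prod.ext (Prod.ext (Subsingleton.elim _ _) (Prod.ext rfl rfl)) (Prod.ext ?_ rfl)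
    funext i
    exact ext_two rfl rfl

theorem preimage_hopfSB (j : ℕ) :
    (ambL j).toContinuousLinearEquiv ⁻¹' (hopfSB j) = hopfBundle j := by
  ext q
  have h1 : (ambL j).toContinuousLinearEquiv q = ((0, (fun _ => q.1.1, WithLp.toLp 2 fun _ => q.1.2)),
    (fun _ => WithLp.toLp 2 ![q.2.1.1, q.2.1.2], q.2.2)) := rfl
  rw [mem_preimage, h1]
  have h2 : ∀ v : CC, ‖v‖ ^ 2 = ‖v 0‖ ^ 2 + ‖v 1‖ ^ 2 := by
    intro v
    rw [EuclideanSpace.norm_sq_eq, Fin.sum_univ_two]
  constructor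
  · rintro ⟨g1, g2, g3⟩
    have g4 := (mem_sph _).1 g1
    have g5 := (hopfP_fix _).1 (g2 0)
    rw [Fin.sum_univ_one, h2] at g3
    exact ⟨g4, g5.1, g5.2, g3⟩
  · rintro ⟨g1, g2, g3, g4⟩
    refine ⟨(mem_sph _).2 g1, fun i => (hopfP_fix _).2 ⟨g2, g3⟩, ?_⟩
    rw [Fin.sum_univ_one, h2]
    exact g4

theorem hopfBundle_spec (j : ℕ) :
    IsClosedManifold (hopfBundle j) (j + 3) ∧ ANCO (hopfBundle j) (j + 3) := by
  rw [← preimage_hopfSB]
  exact ⟨closed_preimage _ (hopfSB_spec j).1, anco_preimage _ (hopfSB_spec j).2⟩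

end Pool.Agent.H21_s2
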