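import Pool.Agent.H21_anco.Bridge

/-!
The closure theorem for sphere bundles.
-/

open scoped ContDiff
open Set

noncomputable section

namespace Pool.Agent.H21_s2

open Pool.Agent.H21_anco

/-- the closure theorem -/
theorem sphere_bundle {E F : Type*} [NormedAddCommGroup E] [NormedSpace ℝ E]
    [FiniteDimensional ℝ E]
    [NormedAddCommGroup F] [InnerProductSpace ℂ F] [FiniteDimensional ℂ F] {n k j N : ℕ}
    (hk : 0 < k) (hN : N + 1 = n + 2 * k + j) {B : Set E} (hB : Pub.IsClosedManifold B n)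
    (hA : Pub.ANCO B n) {P : Fin k → E → F →ₗ[ℂ] F}
    (hP : ∀ i v, ContDiff ℝ ∞ (fun b => P i b v)) (hL : ∀ i, ∀ b ∈ B, Pub.IsLineProj (P i b)) :
    Pub.IsClosedManifold (Pub.SB j B P) N ∧ Pub.ANCO (Pub.SB j B P) N := by
  have : Nonempty (Fin k) := ⟨⟨0, hk⟩⟩
  have hN' : N + 1 = Module.finrank ℝ (RR n × ((Fin k → ℂ) × RR j)) := by
    rw [Module.finrank_prod, Module.finrank_prod, Module.finrank_pi_fintype,
      finrank_euclideanSpace_fin, finrank_euclideanSpace_fin, hN]
    simp [Complex.finrank_real_complex]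
    ring
  have : FiniteDimensional ℝ F := FiniteDimensional.complexToReal F
  have hP' : ∀ i, ContDiff ℝ ∞ (toL P i) := contDiff_toL hP
  have hL' : ∀ i, ∀ b ∈ B, IsLineProj (toL P i b) := fun i b hb => lineProj_toL (hL i b hb)
  have hB' := pub_closed.1 hB
  have h1 := isClosedManifold_SB (Y := RR j) hB' hP' hL' hN'
  have h2 := anco_SB (Y := RR j) hB' (pub_anco.1 hA) hP' hL' hN'
  exact ⟨pub_closed.2 h1, pub_anco.2 h2⟩

end Pool.Agent.H21_s2
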