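import Mathlib

/-!
A space with an open cover by simply connected sets which all contain a base point and whose
pairwise intersections are path connected is simply connected.
-/

open Set unitInterval

noncomputable section

namespace Pool.Agent.H21_s2

variable {X : Type*} [TopologicalSpace X]

theorem homotopic_of_mem {A : Set X} (hA : IsSimplyConnected A) {x y : X} (p q : Path x y)
    (hp : ∀ t, p t ∈ A) (hq : ∀ t, q t ∈ A) : p.Homotopic q := by
  have := hA.simplyConnectedSpace
  have hx : x ∈ A := by simpa using hp 0
  have hy : y ∈ A := by simpa using hp 1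
  let p' : Path (⟨x, hx⟩ : A) ⟨y, hy⟩ :=
    { toFun := fun t => ⟨p t, hp t⟩
      continuous_toFun := Continuous.subtype_mk p.continuous _
      source' := by simp
      target' := by simp }
  let q' : Path (⟨x, hx⟩ : A) ⟨y, hy⟩ :=
    { toFun := fun t => ⟨q t, hq t⟩
      continuous_toFun := Continuous.subtype_mk q.continuous _
      source' := by simp
      target' := by simp }
  have h := (SimplyConnectedSpace.paths_homotopic p' q').map
    ⟨(Subtype.val : A → X), continuous_subtype_val⟩
  exact h

theorem simplyConnected_of_cover {ι : Type*} (A : ι → Set X) (hopen : ∀ i, IsOpen (A i))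
    (hcov : ∀ x, ∃ i, x ∈ A i) (x₀ : X) (h0 : ∀ i, x₀ ∈ A i)
    (hsc : ∀ i, IsSimplyConnected (A i)) (hpc : ∀ i j, IsPathConnected (A i ∩ A j)) :
    SimplyConnectedSpace X := by
  -- the paths from the base point
  have hc : ∀ x : X, ∃ c : Path x₀ x, ∀ i, x ∈ A i →
      ∃ d : Path x₀ x, (∀ t, d t ∈ A i) ∧ c.Homotopic d := by
    intro x
    obtain ⟨i, hi⟩ := hcov x
    obtain ⟨c, hc⟩ := (hsc i).isPathConnected.joinedIn x₀ (h0 i) x hi
    refine ⟨c, fun j hj => ?_⟩
    obtain ⟨d, hd⟩ := (hpc i j).joinedIn x₀ ⟨h0 i, h0 j⟩ x ⟨hi, hj⟩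
    exact ⟨d, fun t => (hd t).2, homotopic_of_mem (hsc i) c d hc fun t => (hd t).1⟩
  choose c hc using hc
  -- paths in one of the sets
  have h1 : ∀ (i : ι) (x y : X) (p : Path x y), (∀ t, p t ∈ A i) →
      p.Homotopic ((c x).symm.trans (c y)) := by
    intro i x y p hp
    have hx : x ∈ A i := by simpa using hp 0
    have hy : y ∈ A i := by simpa using hp 1
    obtain ⟨d, hd, hcd⟩ := hc x i hx
    obtain ⟨e, he, hce⟩ := hc y i hy
    have h2 : p.Homotopic (d.symm.trans e) := by
      refine homotopic_of_mem (hsc i) p (d.symm.trans e) hp ?_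
      intro t
      rw [Path.trans_apply]
      split_ifs
      · exact hd _
      · exact he _
    exact h2.trans ((hcd.symm.symm₂).hcomp hce.symm)
  -- general paths
  have h3 : ∀ (x y : X) (p : Path x y), p.Homotopic ((c x).symm.trans (c y)) := by
    intro x y p
    obtain ⟨t, ht0, hmono, ⟨N, hN⟩, hsub⟩ := exists_monotone_Icc_subset_open_cover_unitInterval
      (c := fun i => p ⁻¹' A i) (fun i => (hopen i).preimage p.continuous) (by
        intro s _
        obtain ⟨i, hi⟩ := hcov (p s)
        exact mem_iUnion.2 ⟨i, hi⟩)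
    have h4 : ∀ n, (p.subpath (t 0) (t n)).Homotopic
        ((c (p (t 0))).symm.trans (c (p (t n)))) := by
      intro n
      induction n with
      | zero =>
        rw [Path.subpath_self]
        exact (Path.Homotopic.symm_trans (c (p (t 0)))).symm
      | succ n ih =>
        have h5 : (p.subpath (t n) (t (n + 1))).Homotopic
            ((c (p (t n))).symm.trans (c (p (t (n + 1))))) := by
          obtain ⟨i, hi⟩ := hsub n
          refine h1 i _ _ _ fun s => ?_
          have h6 : p.subpath (t n) (t (n + 1)) s ∈ range (p.subpath (t n) (t (n + 1))) :=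
            mem_range_self s
          rw [Path.range_subpath_of_le _ _ _ (hmono (Nat.le_succ n))] at h6
          obtain ⟨r, hr, hr'⟩ := h6
          rw [← hr']
          exact hi hr
        have h6 : (p.subpath (t 0) (t (n + 1))).Homotopic
            ((p.subpath (t 0) (t n)).trans (p.subpath (t n) (t (n + 1)))) :=
          ⟨(Path.Homotopy.subpathTransSubpath p (t 0) (t n) (t (n + 1))).symm⟩
        refine h6.trans ((ih.hcomp h5).trans ?_)
        rw [← Path.Homotopic.Quotient.eq]
        simp only [Path.Homotopic.Quotient.mk_trans, Path.Homotopic.Quotient.mk_symm]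
        rw [Path.Homotopic.Quotient.trans_assoc, ← Path.Homotopic.Quotient.trans_assoc
          (Path.Homotopic.Quotient.mk (c (p (t n)))),
          Path.Homotopic.Quotient.trans_symm, Path.Homotopic.Quotient.refl_trans]
    have h7 := h4 N
    have h8 : t N = 1 := hN N le_rfl
    have key : ∀ (a b : I), a = 0 → b = 1 → (p.subpath a b).Homotopic
        ((c (p a)).symm.trans (c (p b))) → p.Homotopic ((c x).symm.trans (c y)) := by
      rintro _ _ rfl rfl h
      rw [Path.subpath_zero_one] at h
      have h9 : ∀ (x' y' : X) (hx : x' = x) (hy : y' = y),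
          (p.cast hx hy).Homotopic ((c x').symm.trans (c y')) →
          p.Homotopic ((c x).symm.trans (c y)) := by
        rintro _ _ rfl rfl h
        exact h
      exact h9 _ _ _ _ h
    exact key _ _ ht0 h8 h7
  rw [simply_connected_iff_paths_homotopic']
  refine ⟨⟨⟨x₀⟩, fun x y => ⟨(c x).symm.trans (c y)⟩⟩, ?_⟩
  intro x y p q
  exact (h3 x y p).trans (h3 x y q).symm

end Pool.Agent.H21_s2
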