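import Pool.Agent.H21_s2.SC
import Pool.Agent.H21_s2.Def

/-!
The nontrivial sphere bundles over the two-sphere are simply connected.
-/

open Set

noncomputable section

namespace Pool.Agent.H21_s2

open Pool.Agent.H21_anco.Pub

variable {m : ℕ}

/-- the coordinate space -/
abbrev VV (m : ℕ) : Type := ℂ × (ℂ × (Fin m → ℝ))

/-- `1 + |ζ|^2` -/
def rr (v : VV m) : ℝ := 1 + ‖v.1‖ ^ 2

/-- `1 + (1 + |ζ|^2) |a|^2 + |η|^2` -/
def RRf (v : VV m) : ℝ := 1 + (rr v * ‖v.2.1‖ ^ 2 + ∑ i, v.2.2 i ^ 2)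

theorem rr_pos (v : VV m) : 0 < rr v := by
  simp only [rr]
  positivity

theorem rest_nonneg (v : VV m) : 0 ≤ rr v * ‖v.2.1‖ ^ 2 + ∑ i, v.2.2 i ^ 2 :=
  add_nonneg (mul_nonneg (rr_pos v).le (sq_nonneg _)) (Finset.sum_nonneg fun i _ => sq_nonneg _)

theorem RRf_pos (v : VV m) : 0 < RRf v := by
  have := rest_nonneg v
  simp only [RRf]
  linarith

theorem continuous_rr : Continuous (rr : VV m → ℝ) := by
  unfold rr
  fun_prop

theorem continuous_RRf : Continuous (RRf : VV m → ℝ) := by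
  unfold RRf
  have := continuous_rr (m := m)
  fun_prop

theorem norm_sq_succ (y : RR (m + 1)) : ‖y‖ ^ 2 = y 0 ^ 2 + ∑ i : Fin m, y i.succ ^ 2 := by
  rw [EuclideanSpace.norm_sq_eq, Fin.sum_univ_succ]
  simp only [Real.norm_eq_abs, sq_abs]

/-- the coordinates, as a map to the ambient space -/
def phi (v : VV m) : (ℂ × ℝ) × ((ℂ × ℂ) × RR (m + 1)) :=
  (((2 / rr v : ℝ) * v.1, 2 / rr v - 1),
    (((2 / RRf v : ℝ) * v.2.1, v.1 * ((2 / RRf v : ℝ) * v.2.1)),
      WithLp.toLp 2 (Fin.cons (2 / RRf v - 1) fun i => 2 / RRf v * v.2.2 i)))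

theorem conj_mul_self2 (z : ℂ) : (starRingEnd ℂ) z * z = ((‖z‖ ^ 2 : ℝ) : ℂ) := by
  have h := Complex.normSq_eq_conj_mul_self (z := z)
  rw [Complex.normSq_eq_norm_sq] at h
  exact h.symm

theorem phi_mem (v : VV m) : phi v ∈ hopfBundle (m + 1) := by
  have h1 := (rr_pos v).ne'
  have h2 := (RRf_pos v).ne'
  have h3 : rr v = 1 + ‖v.1‖ ^ 2 := rfl
  have h4 : RRf v = 1 + (rr v * ‖v.2.1‖ ^ 2 + ∑ i, v.2.2 i ^ 2) := rfl
  have h3' : (rr v : ℂ) = 1 + ((‖v.1‖ ^ 2 : ℝ) : ℂ) := by rw [h3]; push_cast; ring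
  have h1' : (rr v : ℂ) ≠ 0 := by exact_mod_cast h1
  refine ⟨?_, ?_, ?_, ?_⟩
  · simp only [phi]
    rw [norm_mul, Complex.norm_real, Real.norm_eq_abs, abs_of_pos (div_pos two_pos (rr_pos v))]
    field_simp
    rw [h3]
    ring
  · simp only [phi]
    rw [Complex.star_def, map_mul, Complex.conj_ofReal]
    have h5 := conj_mul_self2 v.1
    have h6 : (1 - ((2 / rr v - 1 : ℝ) : ℂ)) = ((2 / rr v : ℝ) : ℂ) * ((‖v.1‖ ^ 2 : ℝ) : ℂ) := by
      push_cast
      field_simp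
      rw [h3']
      push_cast
      ring
    rw [h6, ← h5]
    ring
  · simp only [phi]
    have h6 : (1 + ((2 / rr v - 1 : ℝ) : ℂ)) = ((2 / rr v : ℝ) : ℂ) := by
      push_cast
      ring
    rw [h6]
    ring
  · simp only [phi]
    rw [norm_sq_succ]
    simp only [Fin.cons_zero, Fin.cons_succ]
    rw [norm_mul, norm_mul, norm_mul, Complex.norm_real, Real.norm_eq_abs,
      abs_of_pos (div_pos two_pos (RRf_pos v))]
    have h7 : ∑ i, (2 / RRf v * v.2.2 i) ^ 2 = (2 / RRf v) ^ 2 * ∑ i, v.2.2 i ^ 2 := by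
      rw [Finset.mul_sum]
      exact Finset.sum_congr rfl fun i _ => by ring
    rw [h7]
    have h8 : ∑ i, v.2.2 i ^ 2 = RRf v - 1 - rr v * ‖v.2.1‖ ^ 2 := by rw [h4]; ring
    rw [h8, h3]
    field_simp
    ring

/-- the total space -/
abbrev XX (m : ℕ) : Type := hopfBundle (m + 1)

/-- the coordinates -/
def phiX (v : VV m) : XX m := ⟨phi v, phi_mem v⟩

theorem continuous_phiX : Continuous (phiX : VV m → XX m) := by
  have h1 := continuous_rr (m := m)
  have h2 := continuous_RRf (m := m)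
  have h3 : Continuous fun v : VV m => 2 / rr v :=
    continuous_const.div h1 fun v => (rr_pos v).ne'
  have h4 : Continuous fun v : VV m => 2 / RRf v :=
    continuous_const.div h2 fun v => (RRf_pos v).ne'
  have h3' : Continuous fun v : VV m => ((2 / rr v : ℝ) : ℂ) := Complex.continuous_ofReal.comp h3
  have h4' : Continuous fun v : VV m => ((2 / RRf v : ℝ) : ℂ) := Complex.continuous_ofReal.comp h4
  refine Continuous.subtype_mk ?_ _
  refine (Continuous.prodMk ?_ ?_).prodMk ((Continuous.prodMk ?_ ?_).prodMk ?_)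
  · exact h3'.mul continuous_fst
  · exact h3.sub continuous_const
  · exact h4'.mul (continuous_fst.comp continuous_snd)
  · exact continuous_fst.mul (h4'.mul (continuous_fst.comp continuous_snd))
  · refine (PiLp.continuous_toLp 2 _).comp (continuous_pi fun i => ?_)
    refine Fin.cases ?_ (fun i => ?_) i
    · simp only [Fin.cons_zero]
      exact h4.sub continuous_const
    · simp only [Fin.cons_succ]
      exact h4.mul ((continuous_apply i).comp (continuous_snd.comp continuous_snd))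

/-- the height on the base -/
def tt (q : XX m) : ℝ := q.1.1.2

/-- the height on the fibre -/
def yy (q : XX m) : ℝ := q.1.2.2 0

theorem continuous_tt : Continuous (tt : XX m → ℝ) := by
  unfold tt
  fun_prop

theorem continuous_yy : Continuous (yy : XX m → ℝ) := by
  unfold yy
  fun_prop

/-- the sign -/
def sg (b : Bool) : ℝ := if b then 1 else -1

/-- the open cover -/
def AA (i : Bool × Bool) : Set (XX m) := {q | 0 < 1 + sg i.1 * tt q ∧ 0 < 1 + sg i.2 * yy q}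

theorem isOpen_AA (i : Bool × Bool) : IsOpen (AA i : Set (XX m)) := by
  refine IsOpen.inter ?_ ?_
  · exact isOpen_lt continuous_const (continuous_const.add (continuous_const.mul continuous_tt))
  · exact isOpen_lt continuous_const (continuous_const.add (continuous_const.mul continuous_yy))

theorem cover_AA (q : XX m) : ∃ i, q ∈ AA i := by
  have h : ∀ x : ℝ, ∃ b, 0 < 1 + sg b * x := by
    intro x
    rcases le_total 0 x with hx | hx
    · exact ⟨true, by simp [sg]; linarith⟩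
    · exact ⟨false, by simp [sg]; linarith⟩
  obtain ⟨b, hb⟩ := h (tt q)
  obtain ⟨c, hc⟩ := h (yy q)
  exact ⟨(b, c), hb, hc⟩

theorem tt_phi (v : VV m) : tt (phiX v) = 2 / rr v - 1 := rfl

theorem yy_phi (v : VV m) : yy (phiX v) = 2 / RRf v - 1 := rfl

/-- the inverse of the coordinates -/
def psi (q : XX m) : VV m :=
  (q.1.1.1 / ((1 + tt q : ℝ) : ℂ), (q.1.2.1.1 / ((1 + yy q : ℝ) : ℂ),
    fun i => q.1.2.2 i.succ / (1 + yy q)))

theorem psi_phi (v : VV m) : psi (phiX v) = v := by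
  have h1 := (rr_pos v).ne'
  have h2 := (RRf_pos v).ne'
  have h1' : (rr v : ℂ) ≠ 0 := by exact_mod_cast h1
  have h2' : (RRf v : ℂ) ≠ 0 := by exact_mod_cast h2
  have e1 : (1 + tt (phiX v) : ℝ) = 2 / rr v := by rw [tt_phi]; ring
  have e2 : (1 + yy (phiX v) : ℝ) = 2 / RRf v := by rw [yy_phi]; ring
  refine Prod.ext ?_ (Prod.ext ?_ ?_)
  · show ((2 / rr v : ℝ) * v.1) / ((1 + tt (phiX v) : ℝ) : ℂ) = v.1
    rw [e1]
    push_cast
    field_simp
  · show ((2 / RRf v : ℝ) * v.2.1) / ((1 + yy (phiX v) : ℝ) : ℂ) = v.2.1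
    rw [e2]
    push_cast
    field_simp
  · funext i
    show (2 / RRf v * v.2.2 i) / (1 + yy (phiX v)) = v.2.2 i
    rw [e2]
    field_simp

theorem phi_psi (q : XX m) (hq : q ∈ AA (true, true)) : phiX (psi q) = q := by
  obtain ⟨⟨⟨z, t⟩, ⟨w, w'⟩, y⟩, g1, g2, g3, g4⟩ := q
  simp only at g1 g2 g3 g4
  obtain ⟨k1, k2⟩ := hq
  simp only [sg, tt, yy, if_true, one_mul] at k1 k2
  have k1' : ((1 + t : ℝ) : ℂ) ≠ 0 := by exact_mod_cast k1.ne'
  have k2' : ((1 + y 0 : ℝ) : ℂ) ≠ 0 := by exact_mod_cast k2.ne'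
  set ζ : ℂ := z / ((1 + t : ℝ) : ℂ) with hζ
  set a : ℂ := w / ((1 + y 0 : ℝ) : ℂ) with ha
  have nζ : ‖ζ‖ ^ 2 = ‖z‖ ^ 2 / (1 + t) ^ 2 := by
    rw [hζ, norm_div, Complex.norm_real, Real.norm_eq_abs, abs_of_pos k1, div_pow]
  have na : ‖a‖ ^ 2 = ‖w‖ ^ 2 / (1 + y 0) ^ 2 := by
    rw [ha, norm_div, Complex.norm_real, Real.norm_eq_abs, abs_of_pos k2, div_pow]
  have hw' : w' = ζ * w := by
    rw [hζ]
    field_simp
    push_cast
    linear_combination -g3
  have hz2 : ‖z‖ ^ 2 = (1 - t) * (1 + t) := by linarith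
  have er : 1 + ‖ζ‖ ^ 2 = 2 / (1 + t) := by
    rw [nζ, hz2]
    field_simp
    ring
  rw [norm_sq_succ] at g4
  have eR : 1 + ((1 + ‖ζ‖ ^ 2) * ‖a‖ ^ 2 + ∑ i : Fin m, (y i.succ / (1 + y 0)) ^ 2) =
      2 / (1 + y 0) := by
    have h5 : ∑ i : Fin m, (y i.succ / (1 + y 0)) ^ 2 =
        (∑ i : Fin m, y i.succ ^ 2) / (1 + y 0) ^ 2 := by
      rw [Finset.sum_div]
      exact Finset.sum_congr rfl fun i _ => by rw [div_pow]
    have h6 : ‖w'‖ ^ 2 = ‖ζ‖ ^ 2 * ‖w‖ ^ 2 := by rw [hw', norm_mul]; ring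
    have h7 : ∑ i : Fin m, y i.succ ^ 2 = 1 - (1 + ‖ζ‖ ^ 2) * ‖w‖ ^ 2 - y 0 ^ 2 := by
      rw [h6] at g4
      linarith
    rw [h5, h7, na]
    field_simp
    ring
  have r1 : rr (psi (⟨((z, t), ((w, w'), y)), g1, g2, g3, by rw [norm_sq_succ]; exact g4⟩ : XX m)) =
      2 / (1 + t) := er
  have r2 : RRf (psi (⟨((z, t), ((w, w'), y)), g1, g2, g3, by rw [norm_sq_succ]; exact g4⟩ : XX m)) =
      2 / (1 + y 0) := eR
  have k1n := k1.ne'
  have k2n := k2.ne'
  apply Subtype.ext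
  simp only [phiX, phi]
  rw [r1, r2]
  refine Prod.ext (Prod.ext ?_ ?_) (Prod.ext (Prod.ext ?_ ?_) ?_)
  · show ((2 / (2 / (1 + t)) : ℝ) : ℂ) * ζ = z
    rw [hζ]
    push_cast at k1' ⊢
    field_simp
  · show 2 / (2 / (1 + t)) - 1 = t
    field_simp
    ring
  · show ((2 / (2 / (1 + y 0)) : ℝ) : ℂ) * a = w
    rw [ha]
    push_cast at k2' ⊢
    field_simp
  · show ζ * (((2 / (2 / (1 + y 0)) : ℝ) : ℂ) * a) = w'
    rw [hw', ha]
    push_cast at k2' ⊢
    field_simp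
  · ext i
    refine Fin.cases ?_ (fun i => ?_) i
    · show 2 / (2 / (1 + y 0)) - 1 = y 0
      field_simp
      ring
    · show 2 / (2 / (1 + y 0)) * (y i.succ / (1 + y 0)) = y i.succ
      field_simp

end Pool.Agent.H21_s2
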