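import Pool.Agent.H21_s2.Top

/-!
The nontrivial sphere bundles over the two-sphere are simply connected (continued).
-/

open Set

noncomputable section

namespace Pool.Agent.H21_s2

open Pool.Agent.H21_anco.Pub

variable {m : ℕ}

theorem tt_phi_add (v : VV m) : 1 + tt (phiX v) = 2 / rr v := by rw [tt_phi]; ring

theorem yy_phi_add (v : VV m) : 1 + yy (phiX v) = 2 / RRf v := by rw [yy_phi]; ring

theorem phi_mem_AA (v : VV m) : phiX v ∈ (AA (true, true) : Set (XX m)) := by
  refine ⟨?_, ?_⟩
  · simp only [sg, if_true, one_mul]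
    rw [tt_phi_add]
    exact div_pos two_pos (rr_pos v)
  · simp only [sg, if_true, one_mul]
    rw [yy_phi_add]
    exact div_pos two_pos (RRf_pos v)

/-- the homeomorphism of the first set with a vector space -/
def homeoAA (m : ℕ) : (AA (true, true) : Set (XX m)) ≃ₜ VV m where
  toFun q := psi q.1
  invFun v := ⟨phiX v, phi_mem_AA v⟩
  left_inv q := Subtype.ext (phi_psi q.1 q.2)
  right_inv v := psi_phi v
  continuous_toFun := by
    have h1 : Continuous fun q : (AA (true, true) : Set (XX m)) => 1 + tt q.1 :=
      continuous_const.add (continuous_tt.comp continuous_subtype_val)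
    have h2 : Continuous fun q : (AA (true, true) : Set (XX m)) => 1 + yy q.1 :=
      continuous_const.add (continuous_yy.comp continuous_subtype_val)
    have k1 : ∀ q : (AA (true, true) : Set (XX m)), 0 < 1 + tt q.1 := by
      intro q
      have := q.2.1
      simpa only [sg, if_true, one_mul] using this
    have k2 : ∀ q : (AA (true, true) : Set (XX m)), 0 < 1 + yy q.1 := by
      intro q
      have := q.2.2
      simpa only [sg, if_true, one_mul] using this
    have h1' : Continuous fun q : (AA (true, true) : Set (XX m)) => ((1 + tt q.1 : ℝ) : ℂ) :=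
      Complex.continuous_ofReal.comp h1
    have h2' : Continuous fun q : (AA (true, true) : Set (XX m)) => ((1 + yy q.1 : ℝ) : ℂ) :=
      Complex.continuous_ofReal.comp h2
    refine Continuous.prodMk ?_ (Continuous.prodMk ?_ (continuous_pi fun i => ?_))
    · refine Continuous.div ?_ h1' fun q => by exact_mod_cast (k1 q).ne'
      fun_prop
    · refine Continuous.div ?_ h2' fun q => by exact_mod_cast (k2 q).ne'
      fun_prop
    · refine Continuous.div ?_ h2 fun q => (k2 q).ne'
      fun_prop
  continuous_invFun := Continuous.subtype_mk continuous_phiX _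

theorem sc_AA_true : IsSimplyConnected (AA (true, true) : Set (XX m)) := by
  have h : SimplyConnectedSpace (VV m) := inferInstance
  exact (homeoAA m).toHomotopyEquiv.simplyConnectedSpace

/-- the antipodal symmetry of the fibres of the trivial summand -/
def flipX (m : ℕ) : XX m ≃ₜ XX m where
  toFun q := ⟨(q.1.1, (q.1.2.1, -q.1.2.2)), by
    obtain ⟨g1, g2, g3, g4⟩ := q.2
    refine ⟨g1, g2, g3, ?_⟩
    simp only [norm_neg]
    exact g4⟩
  invFun q := ⟨(q.1.1, (q.1.2.1, -q.1.2.2)), by
    obtain ⟨g1, g2, g3, g4⟩ := q.2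
    refine ⟨g1, g2, g3, ?_⟩
    simp only [norm_neg]
    exact g4⟩
  left_inv q := by
    apply Subtype.ext
    simp
  right_inv q := by
    apply Subtype.ext
    simp
  continuous_toFun := by
    refine Continuous.subtype_mk ?_ _
    fun_prop
  continuous_invFun := by
    refine Continuous.subtype_mk ?_ _
    fun_prop

theorem swap_mem (q : XX m) : (((starRingEnd ℂ) q.1.1.1, -q.1.1.2),
    ((q.1.2.1.2, q.1.2.1.1), q.1.2.2)) ∈ hopfBundle (m + 1) := by
  obtain ⟨g1, g2, g3, g4⟩ := q.2
  refine ⟨?_, ?_, ?_, ?_⟩
  · simp only [RCLike.norm_conj, neg_sq]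
    exact g1
  · simp only [Complex.star_def, Complex.conj_conj]
    rw [g3]
    push_cast
    ring
  · have g2' : (starRingEnd ℂ) q.1.1.1 * q.1.2.1.2 = (1 - (q.1.1.2 : ℂ)) * q.1.2.1.1 := g2
    simp only
    rw [g2']
    push_cast
    ring
  · simp only
    linarith

/-- the symmetry which exchanges the two poles of the base -/
def swapX (m : ℕ) : XX m ≃ₜ XX m where
  toFun q := ⟨_, swap_mem q⟩
  invFun q := ⟨_, swap_mem q⟩
  left_inv q := by
    apply Subtype.ext
    simp
  right_inv q := by
    apply Subtype.ext
    simp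
  continuous_toFun := by
    refine Continuous.subtype_mk ?_ _
    have : Continuous fun q : XX m => (starRingEnd ℂ) q.1.1.1 :=
      Complex.continuous_conj.comp (by fun_prop)
    fun_prop
  continuous_invFun := by
    refine Continuous.subtype_mk ?_ _
    have : Continuous fun q : XX m => (starRingEnd ℂ) q.1.1.1 :=
      Complex.continuous_conj.comp (by fun_prop)
    fun_prop

theorem sg_not (b : Bool) (x : ℝ) : sg b * -x = sg (!b) * x := by
  cases b <;> simp [sg]

theorem flip_preimage (e d : Bool) : flipX m ⁻¹' (AA (e, d)) = AA (e, !d) := by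
  ext q
  show (0 < 1 + sg e * tt q ∧ 0 < 1 + sg d * -yy q) ↔ _
  rw [sg_not]
  rfl

theorem swap_preimage (e d : Bool) : swapX m ⁻¹' (AA (e, d)) = AA (!e, d) := by
  ext q
  show (0 < 1 + sg e * -tt q ∧ 0 < 1 + sg d * yy q) ↔ _
  rw [sg_not]
  rfl

theorem sc_AA (i : Bool × Bool) : IsSimplyConnected (AA i : Set (XX m)) := by
  have h1 := sc_AA_true (m := m)
  have h2 : IsSimplyConnected (AA (true, false) : Set (XX m)) := by
    rw [← Bool.not_true, ← flip_preimage]
    exact (Homeomorph.isSimplyConnected_preimage _).2 h1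
  obtain ⟨e, d⟩ := i
  cases e with
  | true => cases d with
    | true => exact h1
    | false => exact h2
  | false =>
    rw [← Bool.not_true, ← swap_preimage]
    cases d with
    | true => exact (Homeomorph.isSimplyConnected_preimage _).2 h1
    | false => exact (Homeomorph.isSimplyConnected_preimage _).2 h2

theorem pc_preimage {X : Type*} [TopologicalSpace X] (f : X ≃ₜ X) {s : Set X}
    (h : IsPathConnected s) : IsPathConnected (f ⁻¹' s) := by
  rw [← f.image_symm]
  exact h.image f.symm.continuous

theorem pc_flip {e d e' d' : Bool} (h : IsPathConnected (AA (e, d) ∩ AA (e', d') : Set (XX m))) :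
    IsPathConnected (AA (e, !d) ∩ AA (e', !d') : Set (XX m)) := by
  rw [← flip_preimage, ← flip_preimage, ← preimage_inter]
  exact pc_preimage _ h

theorem pc_swap {e d e' d' : Bool} (h : IsPathConnected (AA (e, d) ∩ AA (e', d') : Set (XX m))) :
    IsPathConnected (AA (!e, d) ∩ AA (!e', d') : Set (XX m)) := by
  rw [← swap_preimage, ← swap_preimage, ← preimage_inter]
  exact pc_preimage _ h

/-- the domain in coordinates -/
def DD (m : ℕ) (e d : Bool) : Set (VV m) :=
  (if e then univ else {0}ᶜ) ×ˢ (if d then univ else {0}ᶜ)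

theorem pc_DD (e d : Bool) : IsPathConnected (DD m e d) := by
  refine IsPathConnected.prod ?_ ?_
  · cases e with
    | true => simpa using isPathConnected_univ (X := ℂ)
    | false =>
      simp only [Bool.false_eq_true, if_false]
      refine isPathConnected_compl_singleton_of_one_lt_rank ?_ 0
      rw [Complex.rank_real_complex]
      norm_num
  · cases d with
    | true => simpa using isPathConnected_univ (X := ℂ × (Fin m → ℝ))
    | false =>
      simp only [Bool.false_eq_true, if_false]
      refine isPathConnected_compl_singleton_of_one_lt_rank ?_ 0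
      rw [rank_prod', Complex.rank_real_complex]
      calc (1 : Cardinal) < 2 := by norm_num
        _ ≤ 2 + Module.rank ℝ (Fin m → ℝ) := le_self_add

theorem pc_base (e d : Bool) : IsPathConnected (AA (true, true) ∩ AA (e, d) : Set (XX m)) := by
  have h : phiX '' (DD m e d) = (AA (true, true) ∩ AA (e, d) : Set (XX m)) := by
    have key1 : ∀ v : VV m, 0 < 1 + sg e * tt (phiX v) ↔ v.1 ∈ (if e then univ else {0}ᶜ : Set ℂ) := by
      intro v
      cases e with
      | true =>
        simp only [sg, if_true, one_mul, mem_univ, iff_true]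
        rw [tt_phi_add]
        exact div_pos two_pos (rr_pos v)
      | false =>
        simp only [sg, Bool.false_eq_true, if_false, mem_compl_iff, mem_singleton_iff]
        have h1 : 1 + -1 * tt (phiX v) = 2 * ‖v.1‖ ^ 2 / rr v := by
          rw [tt_phi]
          have := (rr_pos v).ne'
          field_simp
          simp only [rr]
          ring
        rw [h1]
        constructor
        · intro h2 h3
          rw [h3] at h2
          simp at h2
        · intro h2
          have h3 : 0 < ‖v.1‖ := norm_pos_iff.2 h2
          have := rr_pos v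
          positivity
    have key2 : ∀ v : VV m, 0 < 1 + sg d * yy (phiX v) ↔
        v.2 ∈ (if d then univ else {0}ᶜ : Set (ℂ × (Fin m → ℝ))) := by
      intro v
      cases d with
      | true =>
        simp only [sg, if_true, one_mul, mem_univ, iff_true]
        rw [yy_phi_add]
        exact div_pos two_pos (RRf_pos v)
      | false =>
        simp only [sg, Bool.false_eq_true, if_false, mem_compl_iff, mem_singleton_iff]
        have h1 : 1 + -1 * yy (phiX v) = 2 * (rr v * ‖v.2.1‖ ^ 2 + ∑ i, v.2.2 i ^ 2) / RRf v := by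
          rw [yy_phi]
          have := (RRf_pos v).ne'
          field_simp
          simp only [RRf]
          ring
        rw [h1]
        have h0 := rest_nonneg v
        have hR := RRf_pos v
        constructor
        · intro h2 h3
          rw [h3] at h2
          simp at h2
        · intro h2
          have h3 : rr v * ‖v.2.1‖ ^ 2 + ∑ i, v.2.2 i ^ 2 ≠ 0 := by
            intro h4
            apply h2
            have h5 : 0 ≤ rr v * ‖v.2.1‖ ^ 2 := mul_nonneg (rr_pos v).le (sq_nonneg _)
            have h6 : 0 ≤ ∑ i, v.2.2 i ^ 2 := Finset.sum_nonneg fun i _ => sq_nonneg _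
            have h7 : rr v * ‖v.2.1‖ ^ 2 = 0 := by linarith
            have h8 : ∑ i, v.2.2 i ^ 2 = 0 := by linarith
            refine Prod.ext ?_ ?_
            · rcases mul_eq_zero.1 h7 with h9 | h9
              · exact absurd h9 (rr_pos v).ne'
              · exact norm_eq_zero.1 (pow_eq_zero_iff (two_ne_zero)|>.1 h9)
            · funext i
              have h9 := (Finset.sum_eq_zero_iff_of_nonneg fun i _ => sq_nonneg (v.2.2 i)).1 h8 i
                (Finset.mem_univ i)
              exact pow_eq_zero_iff (two_ne_zero)|>.1 h9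
          have h4 : 0 < rr v * ‖v.2.1‖ ^ 2 + ∑ i, v.2.2 i ^ 2 := lt_of_le_of_ne h0 (Ne.symm h3)
          positivity
    ext q
    constructor
    · rintro ⟨v, hv, rfl⟩
      exact ⟨phi_mem_AA v, (key1 v).2 hv.1, (key2 v).2 hv.2⟩
    · rintro ⟨hq, hq1, hq2⟩
      refine ⟨psi q, ?_, phi_psi q hq⟩
      rw [← phi_psi q hq] at hq1 hq2
      exact ⟨(key1 _).1 hq1, (key2 _).1 hq2⟩
  rw [← h]
  exact (pc_DD e d).image continuous_phiX

theorem pc_AA (i j : Bool × Bool) : IsPathConnected (AA i ∩ AA j : Set (XX m)) := by
  obtain ⟨e, d⟩ := i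
  obtain ⟨e', d'⟩ := j
  have h1 : ∀ e' d', IsPathConnected (AA (true, true) ∩ AA (e', d') : Set (XX m)) :=
    fun e' d' => pc_base e' d'
  have h2 : ∀ e' d', IsPathConnected (AA (true, false) ∩ AA (e', d') : Set (XX m)) := by
    intro e' d'
    have := pc_flip (h1 e' (!d'))
    rwa [Bool.not_true, Bool.not_not] at this
  cases e with
  | true => cases d with
    | true => exact h1 e' d'
    | false => exact h2 e' d'
  | false => cases d with
    | true =>
      have := pc_swap (h1 (!e') d')
      rwa [Bool.not_true, Bool.not_not] at this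
    | false =>
      have := pc_swap (h2 (!e') d')
      rwa [Bool.not_true, Bool.not_not] at this

/-- a common point -/
theorem exists_common : ∃ x₀ : XX m, ∀ i, x₀ ∈ (AA i : Set (XX m)) := by
  have hn : ‖((1 / 2 : ℝ) : ℂ)‖ ^ 2 = 1 / 4 := by
    rw [Complex.norm_real, Real.norm_eq_abs, sq_abs]
    norm_num
  have hsq : (Real.sqrt 2) ^ 2 = 2 := Real.sq_sqrt (by norm_num)
  have hs : ‖((Real.sqrt 2 / 2 : ℝ) : ℂ)‖ ^ 2 = 1 / 2 := by
    rw [Complex.norm_real, Real.norm_eq_abs, sq_abs, div_pow, hsq]
    norm_num
  refine ⟨⟨((1, 0), ((((Real.sqrt 2 / 2 : ℝ) : ℂ), ((Real.sqrt 2 / 2 : ℝ) : ℂ)), 0)), ?_⟩, ?_⟩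
  · refine ⟨by simp, by simp, by simp, ?_⟩
    simp only [norm_zero]
    rw [hs]
    norm_num
  · intro i
    constructor
    · show (0 : ℝ) < 1 + sg i.1 * (0 : ℝ)
      norm_num
    · show (0 : ℝ) < 1 + sg i.2 * (0 : RR (m + 1)) 0
      simp

/-- the total space is simply connected -/
theorem simplyConnected_hopfBundle (m : ℕ) : IsSimplyConnected (hopfBundle (m + 1)) := by
  obtain ⟨x₀, h0⟩ := exists_common (m := m)
  exact simplyConnected_of_cover (X := XX m) AA isOpen_AA cover_AA x₀ h0 sc_AA pc_AA

end Pool.Agent.H21_s2
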